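import Pool.Agent.Helper64.SH.Mu
import Pool.Agent.Helper15.SH.Q15
import Pool.Agent.Helper95.SH.Lin
import Pool.Agent.Helper95.SH.Err

/-!
# Project RC, SHARP, cell engine: the exact pieces of the head form

`(9 - cs) (SQ p + SQ r) + (3/4) mu S1Q p - Q (s (-3)) (s (-5)) + κ` in real coordinates: `ex_eq` (row pairs
`v c * (sparse integer functional number c)` over `2 * 10^10`), `ex_blk` (the block with exact entries).
-/

open Finset

namespace Pool.Agent.Helper65.SH

open Helper95.SH Helper95.RC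
open Pool.Agent.Helper64.SH (h_sum hrho S1Q_pV pV_zero)
open Pool.Agent.Helper15.SH (cf q15 q15n)

/-! ### sparse integer functionals -/

/-- the entry `i` of a sparse integer functional -/
def spE : List (ℕ × ℤ) → ℕ → ℤ
  | [], _ => 0
  | p :: l, i => (if i = p.1 then p.2 else 0) + spE l i

/-- its value -/
noncomputable def spV : List (ℕ × ℤ) → (ℕ → ℝ) → ℝ
  | [], _ => 0
  | p :: l, v => (p.2 : ℝ) * v p.1 + spV l v

theorem spV_append (l m : List (ℕ × ℤ)) (v : ℕ → ℝ) : spV (l ++ m) v = spV l v + spV m v := by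
  induction l with
  | nil => simp [spV]
  | cons p l ih => rw [List.cons_append, spV, spV, ih]; ring

/-- all indices are `< n` -/
def spOk (n : ℕ) (l : List (ℕ × ℤ)) : Prop := ∀ p ∈ l, p.1 < n

theorem spV_sum {n : ℕ} {l : List (ℕ × ℤ)} (h : spOk n l) (v : ℕ → ℝ) :
    spV l v = ∑ i ∈ Finset.range n, (spE l i : ℝ) * v i := by
  induction l with
  | nil => simp [spV, spE]
  | cons p l ih =>
    have h1 : p.1 < n := h p (by simp)
    rw [spV, ih fun q hq => h q (by simp [hq])]
    have e : ∑ i ∈ Finset.range n, (spE (p :: l) i : ℝ) * v i =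
        ∑ i ∈ Finset.range n, ((if i = p.1 then (p.2 : ℝ) * v i else 0) + (spE l i : ℝ) * v i) := by
      refine Finset.sum_congr rfl fun i _ => ?_
      rw [spE]
      by_cases hi : i = p.1
      · rw [if_pos hi, if_pos hi]; push_cast; ring
      · rw [if_neg hi, if_neg hi]; push_cast; ring
    rw [e, Finset.sum_add_distrib, Finset.sum_ite_eq', if_pos (Finset.mem_range.2 h1)]

/-- a sparse functional as a row -/
theorem LR_sp {n : ℕ} {D : ℝ} (hD : D ≠ 0) {l : List (ℕ × ℤ)} (h : spOk n l) :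
    LR n D (fun v => spV l v / D) (spE l) 0 := by
  refine ⟨fun i => spE l i / D, fun v _ => ?_, fun i _ => ?_⟩
  · beta_reduce
    rw [spV_sum h v, Finset.sum_div]
    exact Finset.sum_congr rfl fun i _ => by ring
  · rw [mul_div_cancel₀ _ hD, sub_self, abs_zero]

/-! ### the coordinates of a hermitian head array -/

/-- `c * Re u_m` -/
def rL (L base m : ℕ) (c : ℤ) : List (ℕ × ℤ) := if m ≤ L then [(base + (m - 1), c)] else []
/-- `c * Im u_m` -/
def iL (L base m : ℕ) (c : ℤ) : List (ℕ × ℤ) := if 1 ≤ m ∧ m ≤ L then [(base + m, c)] else []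

theorem hV_nat {L base m : ℕ} (hm : Even m) (hmL : m ≤ L) (v : ℕ → ℝ) :
    hV L base v (m : ℤ) = (v (base + (m - 1)) : ℂ) + Complex.I * ((if 1 ≤ m then v (base + m) else 0 : ℝ) : ℂ) := by
  have h1 : ¬ (¬ Even (m : ℤ) ∨ (m : ℤ) ∉ Finset.Icc (-(L : ℤ)) L) := by
    push Not
    exact ⟨by exact_mod_cast hm, by rw [Finset.mem_Icc]; omega⟩
  unfold hV
  rw [if_neg h1]
  by_cases h0 : m = 0
  · subst h0
    rw [if_pos (by rfl), if_neg (by omega)]
    simp
  · rw [if_neg (by omega), if_pos (by omega), if_pos (by omega), Int.toNat_natCast]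

theorem rL_eq {L base m : ℕ} (hm : Even m) (c : ℤ) (v : ℕ → ℝ) :
    spV (rL L base m c) v = c * (hV L base v (m : ℤ)).re := by
  unfold rL
  by_cases h : m ≤ L
  · rw [if_pos h, hV_nat hm h]
    simp [spV]
  · rw [if_neg h, hV_sup L base v (m : ℤ) (by rw [Finset.mem_Icc]; omega)]
    simp [spV]

theorem iL_eq {L base m : ℕ} (hm : Even m) (c : ℤ) (v : ℕ → ℝ) :
    spV (iL L base m c) v = c * (hV L base v (m : ℤ)).im := by
  unfold iL
  by_cases h : m ≤ L
  · rw [hV_nat hm h]
    by_cases h1 : 1 ≤ m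
    · rw [if_pos ⟨h1, h⟩, if_pos h1]
      simp [spV]
    · rw [if_neg (fun k => h1 k.1), if_neg h1]
      simp [spV]
  · rw [if_neg (fun k => h k.2), hV_sup L base v (m : ℤ) (by rw [Finset.mem_Icc]; omega)]
    simp [spV]

theorem rL_ok {L base m n : ℕ} (h : base + L < n) (c : ℤ) : spOk n (rL L base m c) := by
  unfold rL
  intro p hp
  split_ifs at hp with h1
  · simp only [List.mem_singleton] at hp
    subst hp
    show base + (m - 1) < n
    omega
  · simp at hp

theorem iL_ok {L base m n : ℕ} (h : base + L < n) (c : ℤ) : spOk n (iL L base m c) := by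
  unfold iL
  intro p hp
  split_ifs at hp with h1
  · simp only [List.mem_singleton] at hp
    subst hp
    show base + m < n
    omega
  · simp at hp

theorem spOk.append {n : ℕ} {l m : List (ℕ × ℤ)} (h : spOk n l) (k : spOk n m) : spOk n (l ++ m) := fun p hp => by
  rcases List.mem_append.1 hp with h1 | h1
  · exact h p h1
  · exact k p h1

/-! ### the weighted square -/

/-- the row `c` of the weighted square: `η = (a + i b) / D` -/
def sqL (D a b : ℤ) (L base c : ℕ) : List (ℕ × ℤ) :=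
  if c = 0 then rL L base 0 D ++ (rL L base 2 (2 * a) ++ iL L base 2 (2 * b))
  else if c % 2 = 1 then
    rL L base (c + 1) (2 * D) ++ (rL L base (c - 1) (2 * a) ++ (iL L base (c - 1) (-(2 * b)) ++
      (rL L base (c + 3) (2 * a) ++ iL L base (c + 3) (2 * b))))
  else
    iL L base c (2 * D) ++ (iL L base (c - 2) (2 * a) ++ (rL L base (c - 2) (2 * b) ++
      (iL L base (c + 2) (2 * a) ++ rL L base (c + 2) (-(2 * b)))))

theorem sqL_ok {L base c n : ℕ} (h : base + L < n) (D a b : ℤ) : spOk n (sqL D a b L base c) := by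
  unfold sqL
  split_ifs
  · exact (rL_ok h _).append ((rL_ok h _).append (iL_ok h _))
  · exact (rL_ok h _).append ((rL_ok h _).append ((iL_ok h _).append ((rL_ok h _).append (iL_ok h _))))
  · exact (iL_ok h _).append ((iL_ok h _).append ((rL_ok h _).append ((iL_ok h _).append (rL_ok h _))))

theorem wm_herm {η : ℂ} {u : ℤ → ℂ} (hu : ∀ n, u (-n) = (starRingEnd ℂ) (u n)) (n : ℤ) :
    wm η u (-n) = (starRingEnd ℂ) (wm η u n) := by
  unfold wm
  have e1 : -n - 2 = -(n + 2) := by ring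
  have e2 : -n + 2 = -(n - 2) := by ring
  rw [e1, e2, hu, hu, hu, map_add, map_add, map_mul, map_mul, Complex.conj_conj]
  ring

theorem wm_re (η : ℂ) (u : ℤ → ℂ) (n : ℤ) : (wm η u n).re = (u n).re + (η.re * (u (n - 2)).re - η.im * (u (n - 2)).im)
    + (η.re * (u (n + 2)).re + η.im * (u (n + 2)).im) := by
  unfold wm
  simp [Complex.add_re, Complex.mul_re]

theorem wm_im (η : ℂ) (u : ℤ → ℂ) (n : ℤ) : (wm η u n).im = (u n).im + (η.re * (u (n - 2)).im + η.im * (u (n - 2)).re)
    + (η.re * (u (n + 2)).im - η.im * (u (n + 2)).re) := by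
  unfold wm
  simp [Complex.add_im, Complex.mul_im]
  ring

/-- the row `c` of the weighted square -/
theorem sqL_eq {η : ℂ} {D a b : ℤ} (ha : (D : ℝ) * η.re = a) (hb : (D : ℝ) * η.im = b) {L : ℕ} (base : ℕ) {c : ℕ}
    (v : ℕ → ℝ) (k : ℤ) :
    spV (sqL (k * D) (k * a) (k * b) L base c) v = k * D * hrho (wm η (hV L base v)) c := by
  have hh : ∀ n : ℤ, hV L base v (-n) = (starRingEnd ℂ) (hV L base v n) := hV_neg L base v
  unfold sqL hrho
  by_cases h0 : c = 0
  · subst h0
    rw [if_pos rfl, if_pos rfl, spV_append, spV_append, rL_eq (by decide), rL_eq (by decide), iL_eq (by decide), wm_re]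
    have e1 : (0 : ℤ) - 2 = -2 := by norm_num
    have e2 : (0 : ℤ) + 2 = 2 := by norm_num
    rw [e1, e2, hh 2, Complex.conj_re, Complex.conj_im]
    have e3 : ((0 : ℕ) : ℤ) = 0 := rfl
    have e4 : ((2 : ℕ) : ℤ) = 2 := rfl
    rw [e3, e4]
    push_cast
    rw [← ha, ← hb]
    ring
  rw [if_neg h0, if_neg h0]
  by_cases h1 : c % 2 = 1
  · rw [if_pos h1, if_pos h1]
    have p1 : Even (c + 1) := by rw [Nat.even_iff]; omega
    have p2 : Even (c - 1) := by rw [Nat.even_iff]; omega
    have p3 : Even (c + 3) := by rw [Nat.even_iff]; omega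
    rw [spV_append, spV_append, spV_append, spV_append, rL_eq p1, rL_eq p2, iL_eq p2, rL_eq p3, iL_eq p3,
      wm_herm hh, Complex.conj_re, wm_re]
    have e1 : ((c + 1 : ℕ) : ℤ) = (c : ℤ) + 1 := by push_cast; ring
    have e2 : ((c - 1 : ℕ) : ℤ) = (c : ℤ) + 1 - 2 := by omega
    have e3 : ((c + 3 : ℕ) : ℤ) = (c : ℤ) + 1 + 2 := by push_cast; ring
    rw [e1, e2, e3]
    push_cast
    rw [← ha, ← hb]
    ring
  · rw [if_neg h1, if_neg h1]
    have p1 : Even c := by rw [Nat.even_iff]; omega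
    have p2 : Even (c - 2) := by rw [Nat.even_iff]; omega
    have p3 : Even (c + 2) := by rw [Nat.even_iff]; omega
    rw [spV_append, spV_append, spV_append, spV_append, iL_eq p1, iL_eq p2, rL_eq p2, iL_eq p3, rL_eq p3,
      wm_herm hh, Complex.conj_im, wm_im]
    have e2 : ((c - 2 : ℕ) : ℤ) = (c : ℤ) - 2 := by omega
    have e3 : ((c + 2 : ℕ) : ℤ) = (c : ℤ) + 2 := by push_cast; ring
    rw [e2, e3]
    push_cast
    rw [← ha, ← hb]
    ring

/-- **the weighted square of a hermitian head array as row pairs** -/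
theorem SQ_hV {L N : ℕ} (hL : Even L) (hLN : L ≤ N) (base : ℕ) {η : ℂ} {D a b : ℤ} (ha : (D : ℝ) * η.re = a)
    (hb : (D : ℝ) * η.im = b) (v : ℕ → ℝ) (k : ℤ) :
    k * D * SQ (N + 2) η (hV L base v) =
      ∑ c ∈ Finset.range (L + 1), v (base + c) * spV (sqL (k * D) (k * a) (k * b) L base c) v := by
  rw [SQ_dt (Sup.mono hLN (hV_sup L base v))]
  unfold dt
  rw [h_sum hL hLN, Finset.mul_sum]
  refine Finset.sum_congr rfl fun c _ => ?_
  rw [sqL_eq ha hb]
  ring

/-! ### the polynomial of the cell -/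

theorem sV_m3 {K : ℕ} (h5 : 5 ≤ K) (v : ℕ → ℝ) :
    sV K v (-3) = (v (K - 2) : ℂ) + Complex.I * (v (K - 1) : ℂ) := by
  unfold sV
  rw [if_neg (by push Not; exact ⟨by decide, by rw [Finset.mem_Icc]; omega⟩)]
  have e1 : 1 + (-3 + (K : ℤ)).toNat = K - 2 := by omega
  have e2 : 2 + (-3 + (K : ℤ)).toNat = K - 1 := by omega
  rw [e1, e2]

theorem sV_m5 {K : ℕ} (h5 : 5 ≤ K) (v : ℕ → ℝ) :
    sV K v (-5) = (v (K - 4) : ℂ) + Complex.I * (v (K - 3) : ℂ) := by
  unfold sV
  rw [if_neg (by push Not; exact ⟨by decide, by rw [Finset.mem_Icc]; omega⟩)]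
  have e1 : 1 + (-5 + (K : ℤ)).toNat = K - 4 := by omega
  have e2 : 2 + (-5 + (K : ℤ)).toNat = K - 3 := by omega
  rw [e1, e2]

/-- the rows of `-Q` in the coordinates of `s (-3), s (-5)` -/
def qL (K : ℕ) (q : List ℤ) (c : ℕ) : List (ℕ × ℤ) :=
  if c = K - 2 then [(0, -(10 * cf q 1)), (K - 2, -(20 * cf q 5)), (K - 1, -(10 * cf q 9)), (K - 4, -(10 * cf q 10)),
    (K - 3, -(10 * cf q 11))]
  else if c = K - 1 then [(0, -(10 * cf q 2)), (K - 2, -(10 * cf q 9)), (K - 1, -(20 * cf q 6)),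
    (K - 4, -(10 * cf q 12)), (K - 3, -(10 * cf q 13))]
  else if c = K - 4 then [(0, -(10 * cf q 3)), (K - 2, -(10 * cf q 10)), (K - 1, -(10 * cf q 12)),
    (K - 4, -(20 * cf q 7)), (K - 3, -(10 * cf q 14))]
  else if c = K - 3 then [(0, -(10 * cf q 4)), (K - 2, -(10 * cf q 11)), (K - 1, -(10 * cf q 13)),
    (K - 4, -(10 * cf q 14)), (K - 3, -(20 * cf q 8))]
  else []

/-- the row `c` of the exact form, scale `2 * 10^10`; `eta = (a + i b) / 10^5`, `9 - cs = G / 10^5`,
`mu1 + mu2 = μ / 10^5`, the constant `κ` -/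
def exL (K L : ℕ) (a b G μ κ : ℤ) (q : List ℤ) (c : ℕ) : List (ℕ × ℤ) :=
  if c = 0 then [(0, 20000000000 * κ - 20 * cf q 0), (K - 2, -(10 * cf q 1)), (K - 1, -(10 * cf q 2)),
    (K - 4, -(10 * cf q 3)), (K - 3, -(10 * cf q 4))]
  else if c < bp K then qL K q c
  else if c < br K L then (c, (if c = bp K then 150000 else 300000) * μ) ::
    sqL (2 * G * 100000) (2 * G * a) (2 * G * b) L (bp K) (c - bp K)
  else sqL (2 * G * 100000) (2 * G * a) (2 * G * b) L (br K L) (c - br K L)

theorem exL_ok {K L : ℕ} (h5 : 5 ≤ K) (a b G μ κ : ℤ) (q : List ℤ) {c : ℕ} (hc : c < nt K L) :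
    spOk (nt K L) (exL K L a b G μ κ q c) := by
  have hn : nt K L = 1 + 2 * (K + 1) + (L + 1) + (L + 1) := by unfold nt bp; rfl
  have hb : bp K = 1 + 2 * (K + 1) := rfl
  have hr : br K L = 1 + 2 * (K + 1) + (L + 1) := by unfold br bp; rfl
  unfold exL qL
  split_ifs
  all_goals first
    | (intro p hp; simp only [List.mem_cons, List.not_mem_nil, or_false] at hp
       rcases hp with rfl | rfl | rfl | rfl | rfl <;> (show _ < _; simp only []; omega))
    | (intro p hp; simp at hp; done)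
    | (intro p hp; rcases List.mem_cons.1 hp with rfl | hp
       · exact hc
       · exact sqL_ok (by omega) _ _ _ p hp)
    | exact sqL_ok (by omega) _ _ _

/-- the sum of the rows of `-Q` -/
theorem qL_sum {K : ℕ} (h5 : 5 ≤ K) (q : List ℤ) (v : ℕ → ℝ) :
    ∑ j ∈ Finset.range (2 * (K + 1)), v (1 + j) * spV (qL K q (1 + j)) v =
      v (K - 2) * spV (qL K q (K - 2)) v + v (K - 1) * spV (qL K q (K - 1)) v + v (K - 4) * spV (qL K q (K - 4)) v
        + v (K - 3) * spV (qL K q (K - 3)) v := by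
  have hS : ({K - 3, K - 2, K - 5, K - 4} : Finset ℕ) ⊆ Finset.range (2 * (K + 1)) := by
    intro j hj
    simp only [Finset.mem_insert, Finset.mem_singleton] at hj
    rw [Finset.mem_range]
    omega
  rw [← Finset.sum_subset hS]
  · rw [Finset.sum_insert (by simp; omega), Finset.sum_insert (by simp; omega), Finset.sum_insert (by simp; omega),
      Finset.sum_singleton]
    have e1 : 1 + (K - 3) = K - 2 := by omega
    have e2 : 1 + (K - 2) = K - 1 := by omega
    have e3 : 1 + (K - 5) = K - 4 := by omega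
    have e4 : 1 + (K - 4) = K - 3 := by omega
    rw [e1, e2, e3, e4]
    ring
  · intro j _ hj
    simp only [Finset.mem_insert, Finset.mem_singleton, not_or] at hj
    unfold qL
    rw [if_neg (by omega), if_neg (by omega), if_neg (by omega), if_neg (by omega)]
    simp [spV]

/-- **the exact pieces as row pairs** -/
theorem ex_eq {K L N : ℕ} (h5 : 5 ≤ K) (hL : Even L) (hLN : L ≤ N) {η : ℂ} {a b : ℤ}
    (ha : 100000 * η.re = a) (hb : 100000 * η.im = b) (G μ κ : ℤ) (q : List ℤ) (v : ℕ → ℝ) (hv : v 0 = 1) :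
    20000000000 * ((G : ℝ) / 100000 * (SQ (N + 2) η (pV K L v) + SQ (N + 2) η (rV K L v))
      + 3 / 4 * ((μ : ℝ) / 100000) * S1Q N (pV K L v) - q15 q (sV K v (-3)) (sV K v (-5)) + κ) =
      ∑ c ∈ Finset.range (nt K L), v c * spV (exL K L a b G μ κ q c) v := by
  have ha' : ((100000 : ℤ) : ℝ) * η.re = a := by push_cast; exact ha
  have hb' : ((100000 : ℤ) : ℝ) * η.im = b := by push_cast; exact hb
  have sp := SQ_hV (N := N) hL hLN (bp K) ha' hb' v (2 * G)
  have sr := SQ_hV (N := N) hL hLN (br K L) ha' hb' v (2 * G)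
  have s1 := S1Q_pV (K := K) (N := N) hL hLN v
  have e : nt K L = 1 + 2 * (K + 1) + (L + 1) + (L + 1) := by unfold nt bp; rfl
  rw [e, Finset.sum_range_add, Finset.sum_range_add, Finset.sum_range_add, Finset.sum_range_one]
  -- the four parts
  have p0 : spV (exL K L a b G μ κ q 0) v = 20000000000 * κ - 20 * cf q 0 + (-(10 * cf q 1)) * v (K - 2)
      + (-(10 * cf q 2)) * v (K - 1) + (-(10 * cf q 3)) * v (K - 4) + (-(10 * cf q 4)) * v (K - 3) := by
    unfold exL
    rw [if_pos rfl]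
    simp only [spV]
    rw [hv]
    push_cast
    ring
  have p1 : ∑ j ∈ Finset.range (2 * (K + 1)), v (1 + j) * spV (exL K L a b G μ κ q (1 + j)) v =
      ∑ j ∈ Finset.range (2 * (K + 1)), v (1 + j) * spV (qL K q (1 + j)) v := by
    refine Finset.sum_congr rfl fun j hj => ?_
    rw [Finset.mem_range] at hj
    have : exL K L a b G μ κ q (1 + j) = qL K q (1 + j) := by
      unfold exL bp
      rw [if_neg (by omega), if_pos (by omega)]
    rw [this]
  have p2 : ∑ j ∈ Finset.range (L + 1), v (1 + 2 * (K + 1) + j) * spV (exL K L a b G μ κ q (1 + 2 * (K + 1) + j)) v =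
      150000 * μ * S1Q N (pV K L v) + (2 * G) * 100000 * SQ (N + 2) η (pV K L v) := by
    rw [s1]
    have sp' : ((2 * G : ℤ) : ℝ) * ((100000 : ℤ) : ℝ) * SQ (N + 2) η (pV K L v) = _ := sp
    push_cast at sp'
    rw [sp', Finset.mul_sum, ← Finset.sum_add_distrib]
    refine Finset.sum_congr rfl fun j hj => ?_
    rw [Finset.mem_range] at hj
    have : exL K L a b G μ κ q (1 + 2 * (K + 1) + j) = (bp K + j, (if bp K + j = bp K then 150000 else 300000) * μ) ::
        sqL (2 * G * 100000) (2 * G * a) (2 * G * b) L (bp K) j := by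
      have hb1 : bp K + j = 1 + 2 * (K + 1) + j := rfl
      unfold exL
      rw [if_neg (by omega), if_neg (by unfold bp; omega), if_pos (by unfold br bp; omega), ← hb1]
      have t : bp K + j - bp K = j := by omega
      rw [t]
    rw [this, spV]
    have hb1 : 1 + 2 * (K + 1) = bp K := rfl
    rw [hb1]
    by_cases h0 : j = 0
    · subst h0
      rw [if_pos rfl, if_pos (by omega)]
      push_cast
      ring
    · rw [if_neg h0, if_neg (by omega)]
      push_cast
      ring
  have p3 : ∑ j ∈ Finset.range (L + 1), v (1 + 2 * (K + 1) + (L + 1) + j) *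
      spV (exL K L a b G μ κ q (1 + 2 * (K + 1) + (L + 1) + j)) v =
      (2 * G) * 100000 * SQ (N + 2) η (rV K L v) := by
    have sr' : ((2 * G : ℤ) : ℝ) * ((100000 : ℤ) : ℝ) * SQ (N + 2) η (rV K L v) = _ := sr
    push_cast at sr'
    rw [sr']
    refine Finset.sum_congr rfl fun j hj => ?_
    rw [Finset.mem_range] at hj
    have : exL K L a b G μ κ q (1 + 2 * (K + 1) + (L + 1) + j) =
        sqL (2 * G * 100000) (2 * G * a) (2 * G * b) L (br K L) j := by
      have hb1 : br K L + j = 1 + 2 * (K + 1) + (L + 1) + j := rfl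
      unfold exL
      rw [if_neg (by omega), if_neg (by unfold bp; omega), if_neg (by unfold br bp; omega), ← hb1]
      have t : br K L + j - br K L = j := by omega
      rw [t]
    rw [this]
    rfl
  rw [p0, p1, p2, p3, qL_sum h5, sV_m3 h5, sV_m5 h5]
  have q1 : qL K q (K - 2) = [(0, -(10 * cf q 1)), (K - 2, -(20 * cf q 5)), (K - 1, -(10 * cf q 9)),
      (K - 4, -(10 * cf q 10)), (K - 3, -(10 * cf q 11))] := by
    unfold qL; rw [if_pos rfl]
  have q2 : qL K q (K - 1) = [(0, -(10 * cf q 2)), (K - 2, -(10 * cf q 9)), (K - 1, -(20 * cf q 6)),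
      (K - 4, -(10 * cf q 12)), (K - 3, -(10 * cf q 13))] := by
    unfold qL; rw [if_neg (by omega), if_pos rfl]
  have q3 : qL K q (K - 4) = [(0, -(10 * cf q 3)), (K - 2, -(10 * cf q 10)), (K - 1, -(10 * cf q 12)),
      (K - 4, -(20 * cf q 7)), (K - 3, -(10 * cf q 14))] := by
    unfold qL; rw [if_neg (by omega), if_neg (by omega), if_pos rfl]
  have q4 : qL K q (K - 3) = [(0, -(10 * cf q 4)), (K - 2, -(10 * cf q 11)), (K - 1, -(10 * cf q 13)),
      (K - 4, -(10 * cf q 14)), (K - 3, -(20 * cf q 8))] := by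
    unfold qL; rw [if_neg (by omega), if_neg (by omega), if_neg (by omega), if_pos rfl]
  rw [q1, q2, q3, q4]
  unfold q15 q15n
  have r1 : ∀ x y : ℝ, ((x : ℂ) + Complex.I * (y : ℂ)).re = x := fun x y => by simp
  have r2 : ∀ x y : ℝ, ((x : ℂ) + Complex.I * (y : ℂ)).im = y := fun x y => by simp
  simp only [spV, r1, r2]
  rw [hv]
  push_cast
  ring

/-- the unit row -/
def uE (c : ℕ) (i : ℕ) : ℤ := if i = c then 1 else 0

/-- **the exact pieces in integers** (for the matrix certificate): unit rows against sparse rows -/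
theorem ex_iv {K L N : ℕ} (h5 : 5 ≤ K) (hL : Even L) (hLN : L ≤ N) {η : ℂ} {a b : ℤ}
    (ha : 100000 * η.re = a) (hb : 100000 * η.im = b) (G μ κ : ℤ) (q : List ℤ) (v : ℕ → ℝ) (hv : v 0 = 1) :
    20000000000 * ((G : ℝ) / 100000 * (SQ (N + 2) η (pV K L v) + SQ (N + 2) η (rV K L v))
      + 3 / 4 * ((μ : ℝ) / 100000) * S1Q N (pV K L v) - q15 q (sV K v (-3)) (sV K v (-5)) + κ) =
      ∑ c ∈ Finset.range (nt K L), iv (nt K L) (uE c) v * iv (nt K L) (spE (exL K L a b G μ κ q c)) v := by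
  rw [ex_eq h5 hL hLN ha hb G μ κ q v hv]
  refine Finset.sum_congr rfl fun c hc => ?_
  rw [Finset.mem_range] at hc
  rw [spV_sum (exL_ok h5 a b G μ κ q hc)]
  congr 1
  unfold iv uE
  rw [Finset.sum_eq_single c]
  · simp
  · intro i _ hi; simp [hi]
  · intro h; exact absurd (Finset.mem_range.2 hc) h

/-- the same with the rows and columns exchanged (coordinate-major packing: the coordinate `c` carries the sparse
list `exL .. c`, one digit per functional) -/
theorem ex_ivT {K L N : ℕ} (h5 : 5 ≤ K) (hL : Even L) (hLN : L ≤ N) {η : ℂ} {a b : ℤ}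
    (ha : 100000 * η.re = a) (hb : 100000 * η.im = b) (G μ κ : ℤ) (q : List ℤ) (v : ℕ → ℝ) (hv : v 0 = 1) :
    20000000000 * ((G : ℝ) / 100000 * (SQ (N + 2) η (pV K L v) + SQ (N + 2) η (rV K L v))
      + 3 / 4 * ((μ : ℝ) / 100000) * S1Q N (pV K L v) - q15 q (sV K v (-3)) (sV K v (-5)) + κ) =
      ∑ i ∈ Finset.range (nt K L), iv (nt K L) (uE i) v *
        iv (nt K L) (fun c => spE (exL K L a b G μ κ q c) i) v := by
  rw [ex_iv h5 hL hLN ha hb G μ κ q v hv]
  have hu : ∀ c < nt K L, iv (nt K L) (uE c) v = v c := by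
    intro c hc
    unfold iv uE
    rw [Finset.sum_eq_single c]
    · simp
    · intro i _ hi; simp [hi]
    · intro h; exact absurd (Finset.mem_range.2 hc) h
  have l1 : ∑ c ∈ Finset.range (nt K L), iv (nt K L) (uE c) v * iv (nt K L) (spE (exL K L a b G μ κ q c)) v =
      ∑ c ∈ Finset.range (nt K L), ∑ i ∈ Finset.range (nt K L), v c * ((spE (exL K L a b G μ κ q c) i : ℝ) * v i) := by
    refine Finset.sum_congr rfl fun c hc => ?_
    rw [hu c (Finset.mem_range.1 hc)]
    show v c * (∑ i ∈ Finset.range (nt K L), (spE (exL K L a b G μ κ q c) i : ℝ) * v i) = _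
    rw [Finset.mul_sum]
  have l2 : ∑ i ∈ Finset.range (nt K L), iv (nt K L) (uE i) v *
      iv (nt K L) (fun c => spE (exL K L a b G μ κ q c) i) v =
      ∑ i ∈ Finset.range (nt K L), ∑ c ∈ Finset.range (nt K L), v c * ((spE (exL K L a b G μ κ q c) i : ℝ) * v i) := by
    refine Finset.sum_congr rfl fun i hi => ?_
    rw [hu i (Finset.mem_range.1 hi)]
    show v i * (∑ c ∈ Finset.range (nt K L), (spE (exL K L a b G μ κ q c) i : ℝ) * v c) = _
    rw [Finset.mul_sum]
    exact Finset.sum_congr rfl fun c _ => by ring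
  rw [l1, l2, Finset.sum_comm]

end Pool.Agent.Helper65.SH
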