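import Pool.Agent.Helper65.SH.Ex
import Pool.Agent.Helper25.SH.Mat
import Pool.Agent.Helper43.CL.LBk

/-!
# Project RC, SHARP, cell engine: the block of `-Q` (and a constant) for the matrix check

Five functionals `1, Re A, Im A, Re B, Im B` against the rows of `-Q` (upper triangle), scale `2 ^ 56`, weight `10 ^ 9`.
`QA`, `QB`: the packed columns (base `2 ^ (b + 1)`, offset `2 ^ b`); `Q_LB`: the lower bound in helper43's format.
-/

open Finset

namespace Pool.Agent.Helper65.SH

open Helper95.SH Helper95.RC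
open Pool.Agent.Helper15.SH (cf q15 q15n)
open Helper25.SH.Mat (dg row)
open Helper43.CL

/-! ### packing of a short list of integers -/

/-- digits `d_k + 2^b` in base `2^(b+1)` -/
def pkL (b : ℕ) : List ℤ → ℕ
  | [] => 0
  | d :: l => Nat.add (Int.toNat (Int.add d (Nat.pow 2 b : ℕ))) (Nat.mul (Nat.pow 2 (Nat.succ b)) (pkL b l))

/-- all digits fit -/
def fits (b : ℕ) (l : List ℤ) : Prop := ∀ d ∈ l, -(2 ^ b : ℤ) ≤ d ∧ d < 2 ^ b

theorem dg_pkL {b : ℕ} {l : List ℤ} (h : fits b l) {k : ℕ} (hk : k < l.length) :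
    dg b (pkL b l) k = l.getD k 0 := by
  induction l generalizing k with
  | nil => simp at hk
  | cons d l ih =>
    obtain ⟨h1, h2⟩ := h d (by simp)
    have ih' := fun j (hj : j < l.length) => ih (fun x hx => h x (by simp [hx])) hj
    set a : ℕ := Int.toNat (d + ((2 ^ b : ℕ) : ℤ)) with ha
    have ha1 : (a : ℤ) = d + 2 ^ b := by
      rw [ha, Int.toNat_of_nonneg (by push_cast; linarith)]
      push_cast; ring
    have e : pkL b (d :: l) = a + 2 ^ (b + 1) * pkL b l := rfl
    have hB : 0 < 2 ^ (b + 1) := by positivity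
    have haB : a < 2 ^ (b + 1) := by
      have : (a : ℤ) < ((2 ^ (b + 1) : ℕ) : ℤ) := by
        rw [ha1]; push_cast; rw [pow_succ]; linarith
      exact_mod_cast this
    unfold dg
    rw [e]
    cases k with
    | zero =>
      rw [pow_zero, Nat.div_one, Nat.add_mul_mod_self_left, Nat.mod_eq_of_lt haB]
      rw [List.getD_cons_zero, ha1]
      push_cast
      ring
    | succ k =>
      have hk' : k < l.length := by simpa using hk
      have := ih' k hk'
      unfold dg at this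
      rw [List.getD_cons_succ, ← this]
      generalize 2 ^ (b + 1) = B at *
      rw [pow_succ' B k, ← Nat.div_div_eq_div_mul, Nat.add_mul_div_left _ _ hB, Nat.div_eq_of_lt haB, zero_add]

/-! ### the block -/

/-- the coordinates of the five functionals -/
def qix (K : ℕ) : ℕ → ℕ
  | 0 => 0
  | 1 => K - 2
  | 2 => K - 1
  | 3 => K - 4
  | _ => K - 3

/-- the upper triangle of `-Q + kap / 10^9` (numerators over `10^9`) -/
def qM (q : List ℤ) (kap : ℤ) : ℕ → ℕ → ℤ
  | 0, 0 => kap - cf q 0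
  | 0, 1 => -cf q 1
  | 0, 2 => -cf q 2
  | 0, 3 => -cf q 3
  | 0, 4 => -cf q 4
  | 1, 1 => -cf q 5
  | 2, 2 => -cf q 6
  | 3, 3 => -cf q 7
  | 4, 4 => -cf q 8
  | 1, 2 => -cf q 9
  | 1, 3 => -cf q 10
  | 1, 4 => -cf q 11
  | 2, 3 => -cf q 12
  | 2, 4 => -cf q 13
  | 3, 4 => -cf q 14
  | _, _ => 0

/-- at the scale `2^56`, rounded down -/
def qD (q : List ℤ) (kap : ℤ) (c d : ℕ) : ℤ := Int.ediv (Int.mul (qM q kap c d) (2 ^ 56)) 1000000000

theorem qD_err (q : List ℤ) (kap : ℤ) (c d : ℕ) :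
    |(2 : ℝ) ^ 56 * ((qM q kap c d : ℝ) / 10 ^ 9) - qD q kap c d| ≤ 1 := by
  have e : qD q kap c d = (qM q kap c d * 2 ^ 56) / 1000000000 := rfl
  rw [e]
  generalize qM q kap c d = x
  have h1 := Int.emod_add_mul_ediv (x * 2 ^ 56) 1000000000
  have h2 := Int.emod_nonneg (x * 2 ^ 56) (by norm_num : (1000000000 : ℤ) ≠ 0)
  have h3 := Int.emod_lt_of_pos (x * 2 ^ 56) (by norm_num : (0 : ℤ) < 1000000000)
  set r := x * 2 ^ 56 % 1000000000
  set y := x * 2 ^ 56 / 1000000000
  have k1 : (r : ℝ) + 1000000000 * y = x * 2 ^ 56 := by exact_mod_cast h1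
  have k2 : (0 : ℝ) ≤ r := by exact_mod_cast h2
  have k3 : (r : ℝ) < 1000000000 := by exact_mod_cast h3
  have k4 : (2 : ℝ) ^ 56 * ((x : ℝ) / 10 ^ 9) - y = r / 1000000000 := by
    have : (10 : ℝ) ^ 9 = 1000000000 := by norm_num
    rw [this]
    field_simp
    linarith
  rw [k4, abs_of_nonneg (by positivity), div_le_one (by norm_num)]
  exact k3.le

/-- the digits of the coordinate `i` in the unit rows -/
def dA (K i : ℕ) : List ℤ :=
  bif Nat.beq i 0 then [2 ^ 56, 0, 0, 0, 0]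
  else bif Nat.beq i (K - 2) then [0, 2 ^ 56, 0, 0, 0]
  else bif Nat.beq i (K - 1) then [0, 0, 2 ^ 56, 0, 0]
  else bif Nat.beq i (K - 4) then [0, 0, 0, 2 ^ 56, 0]
  else bif Nat.beq i (K - 3) then [0, 0, 0, 0, 2 ^ 56]
  else [0, 0, 0, 0, 0]

/-- the digits of the column `d` of the triangle -/
def colD (q : List ℤ) (kap : ℤ) (d : ℕ) : List ℤ :=
  [qD q kap 0 d, qD q kap 1 d, qD q kap 2 d, qD q kap 3 d, qD q kap 4 d]

/-- the digits of the coordinate `i` in the rows of `-Q` -/
def dB (K : ℕ) (q : List ℤ) (kap : ℤ) (i : ℕ) : List ℤ :=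
  bif Nat.beq i 0 then colD q kap 0
  else bif Nat.beq i (K - 2) then colD q kap 1
  else bif Nat.beq i (K - 1) then colD q kap 2
  else bif Nat.beq i (K - 4) then colD q kap 3
  else bif Nat.beq i (K - 3) then colD q kap 4
  else [0, 0, 0, 0, 0]

/-- **the packed columns of the unit functionals** -/
def QA (b K N : ℕ) : List ℕ := (List.range N).map fun i => pkL b (dA K i)
/-- **the packed columns of the rows of `-Q + kap`** -/
def QB (b K N : ℕ) (q : List ℤ) (kap : ℤ) : List ℕ := (List.range N).map fun i => pkL b (dB K q kap i)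

/-- the check: all coefficients fit -/
def okQ (b : ℕ) (q : List ℤ) (kap : ℤ) : Bool :=
  bif Nat.ble 89 b then
    (bif Nat.ble (Int.natAbs kap) (2 ^ 60) then q.all fun x => Nat.ble (Int.natAbs x) (2 ^ 60) else false)
  else false

theorem okQ_sound {b : ℕ} {q : List ℤ} {kap : ℤ} (h : okQ b q kap = true) :
    89 ≤ b ∧ (kap.natAbs ≤ 2 ^ 60) ∧ ∀ i, (cf q i).natAbs ≤ 2 ^ 60 := by
  unfold okQ at h
  cases h1 : Nat.ble 89 b with
  | false => rw [h1] at h; exact absurd h (by simp)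
  | true =>
    cases h2 : Nat.ble (Int.natAbs kap) (2 ^ 60) with
    | false => rw [h1, h2] at h; exact absurd h (by simp)
    | true =>
      rw [h1, h2] at h
      have h3 : (q.all fun x => Nat.ble (Int.natAbs x) (2 ^ 60)) = true := h
      refine ⟨Nat.le_of_ble_eq_true h1, Nat.le_of_ble_eq_true h2, fun i => ?_⟩
      rw [List.all_eq_true] at h3
      unfold cf
      rw [List.getD_eq_getElem?_getD]
      by_cases hi : i < q.length
      · rw [List.getElem?_eq_getElem hi]
        exact Nat.le_of_ble_eq_true (h3 _ (List.getElem_mem hi))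
      · rw [List.getElem?_eq_none (by omega)]
        simp

theorem qM_le {q : List ℤ} {kap : ℤ} (h1 : kap.natAbs ≤ 2 ^ 60) (h2 : ∀ i, (cf q i).natAbs ≤ 2 ^ 60) (c d : ℕ) :
    |qM q kap c d| ≤ 2 ^ 61 := by
  have k1 : |kap| ≤ 2 ^ 60 := by rw [Int.abs_eq_natAbs]; exact_mod_cast h1
  have k2 : ∀ i, |cf q i| ≤ 2 ^ 60 := fun i => by rw [Int.abs_eq_natAbs]; exact_mod_cast h2 i
  have k3 : ∀ i, |-cf q i| ≤ 2 ^ 61 := fun i => by rw [abs_neg]; have := k2 i; omega
  unfold qM
  split
  · have := abs_sub kap (cf q 0)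
    have := k2 0
    omega
  all_goals first | exact k3 _ | (rw [abs_zero]; positivity)

theorem qD_le {q : List ℤ} {kap : ℤ} (h1 : kap.natAbs ≤ 2 ^ 60) (h2 : ∀ i, (cf q i).natAbs ≤ 2 ^ 60) (c d : ℕ) :
    |qD q kap c d| ≤ 2 ^ 88 := by
  have e : qD q kap c d = (qM q kap c d * 2 ^ 56) / 1000000000 := rfl
  have h := abs_le.1 (qM_le h1 h2 c d)
  rw [e]
  generalize qM q kap c d = x at *
  obtain ⟨ha, hb⟩ := h
  rw [abs_le]
  constructor
  · rw [Int.le_ediv_iff_mul_le (by norm_num)]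
    nlinarith
  · refine Int.le_of_lt_add_one ?_
    rw [Int.ediv_lt_iff_lt_mul (by norm_num)]
    nlinarith

theorem bif_beq {α : Type} (i j : ℕ) (x y : α) : (bif Nat.beq i j then x else y) = if i = j then x else y := by
  by_cases h : i = j
  · subst h
    simp
  · have : Nat.beq i j = false := by
      cases hc : Nat.beq i j with
      | false => rfl
      | true => exact absurd (Nat.eq_of_beq_eq_true hc) h
    rw [this, if_neg h]
    rfl

theorem getD_map_range (f : ℕ → ℕ) {N i : ℕ} (hi : i < N) : ((List.range N).map f).getD i 0 = f i := by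
  rw [List.getD_eq_getElem _ _ (by simpa using hi)]
  simp

theorem dA_fits {b : ℕ} (hb : 89 ≤ b) (K i : ℕ) : fits b (dA K i) := by
  have h1 : (2 : ℤ) ^ 56 < 2 ^ b := pow_lt_pow_right₀ (by norm_num) (by omega)
  have h2 : (0 : ℤ) < 2 ^ b := by positivity
  unfold dA
  simp only [bif_beq]
  intro d hd
  split_ifs at hd
  all_goals
    simp only [List.mem_cons, List.not_mem_nil, or_false] at hd
    rcases hd with rfl | rfl | rfl | rfl | rfl <;> constructor <;> linarith

theorem dA_len (K i : ℕ) : (dA K i).length = 5 := by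
  unfold dA
  simp only [bif_beq]
  split_ifs <;> rfl

theorem dA_get {K : ℕ} (h5 : 5 ≤ K) {c : ℕ} (hc : c < 5) (i : ℕ) :
    (dA K i).getD c 0 = if i = qix K c then 2 ^ 56 else 0 := by
  have z0 : qix K 0 = 0 := rfl
  have z1 : qix K 1 = K - 2 := rfl
  have z2 : qix K 2 = K - 1 := rfl
  have z3 : qix K 3 = K - 4 := rfl
  have z4 : qix K 4 = K - 3 := rfl
  unfold dA
  simp only [bif_beq]
  interval_cases c
  · rw [z0]; split_ifs <;> rfl
  · rw [z1]; split_ifs <;> first | rfl | (exfalso; omega)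
  · rw [z2]; split_ifs <;> first | rfl | (exfalso; omega)
  · rw [z3]; split_ifs <;> first | rfl | (exfalso; omega)
  · rw [z4]; split_ifs <;> first | rfl | (exfalso; omega)

/-- the rows of the unit functionals -/
theorem row_QA {b K N : ℕ} (hb : 89 ≤ b) (h5 : 5 ≤ K) {c i : ℕ} (hc : c < 5) (hi : i < N) :
    row b (QA b K N) c i = if i = qix K c then 2 ^ 56 else 0 := by
  unfold row QA
  rw [getD_map_range _ hi, dg_pkL (dA_fits hb K i) (by rw [dA_len]; exact hc), dA_get h5 hc]

/-- the integer row of the functional `c` of `-Q + kap` -/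
def qR (K : ℕ) (q : List ℤ) (kap : ℤ) (c i : ℕ) : ℤ :=
  if i = 0 then qD q kap c 0 else if i = K - 2 then qD q kap c 1 else if i = K - 1 then qD q kap c 2
  else if i = K - 4 then qD q kap c 3 else if i = K - 3 then qD q kap c 4 else 0

theorem dB_get (K : ℕ) (q : List ℤ) (kap : ℤ) {c : ℕ} (hc : c < 5) (i : ℕ) :
    (dB K q kap i).getD c 0 = qR K q kap c i := by
  unfold dB qR colD
  simp only [bif_beq]
  split_ifs <;> (interval_cases c <;> rfl)

theorem dB_len (K : ℕ) (q : List ℤ) (kap : ℤ) (i : ℕ) : (dB K q kap i).length = 5 := by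
  unfold dB colD
  simp only [bif_beq]
  split_ifs <;> rfl

theorem dB_fits {b : ℕ} {q : List ℤ} {kap : ℤ} (h : okQ b q kap = true) (K i : ℕ) : fits b (dB K q kap i) := by
  obtain ⟨hb, h1, h2⟩ := okQ_sound h
  have h3 : (2 : ℤ) ^ 88 < 2 ^ b := pow_lt_pow_right₀ (by norm_num) (by omega)
  have h4 : (0 : ℤ) < 2 ^ b := by positivity
  have h5 : ∀ c d, -(2 ^ b : ℤ) ≤ qD q kap c d ∧ qD q kap c d < 2 ^ b := fun c d => by
    have := abs_le.1 (qD_le h1 h2 c d)
    constructor <;> linarith [this.1, this.2]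
  unfold dB colD
  simp only [bif_beq]
  intro d hd
  split_ifs at hd
  all_goals
    simp only [List.mem_cons, List.not_mem_nil, or_false] at hd
    rcases hd with rfl | rfl | rfl | rfl | rfl <;> first | exact h5 _ _ | (constructor <;> linarith)

/-- the rows of `-Q + kap` -/
theorem row_QB {b K N : ℕ} {q : List ℤ} {kap : ℤ} (h : okQ b q kap = true) {c i : ℕ} (hc : c < 5) (hi : i < N) :
    row b (QB b K N q kap) c i = qR K q kap c i := by
  unfold row QB
  rw [getD_map_range _ hi, dg_pkL (dB_fits h K i) (by rw [dB_len]; exact hc), dB_get K q kap hc]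

/-! ### the functionals -/

/-- the functional `c` of `-Q + kap / 10^9` -/
noncomputable def qY (K : ℕ) (q : List ℤ) (kap : ℤ) (c : ℕ) (v : ℕ → ℝ) : ℝ :=
  (qM q kap c 0 * v 0 + qM q kap c 1 * v (K - 2) + qM q kap c 2 * v (K - 1) + qM q kap c 3 * v (K - 4)
    + qM q kap c 4 * v (K - 3)) / 10 ^ 9

theorem Q_val {K : ℕ} (h5 : 5 ≤ K) (q : List ℤ) (kap : ℤ) (v : ℕ → ℝ) (hv : v 0 = 1) :
    -q15 q (sV K v (-3)) (sV K v (-5)) + (kap : ℝ) / 10 ^ 9 =
      ∑ c ∈ Finset.range 5, v (qix K c) * qY K q kap c v := by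
  rw [sV_m3 h5, sV_m5 h5]
  unfold q15 q15n
  have r1 : ∀ x y : ℝ, ((x : ℂ) + Complex.I * (y : ℂ)).re = x := fun x y => by simp
  have r2 : ∀ x y : ℝ, ((x : ℂ) + Complex.I * (y : ℂ)).im = y := fun x y => by simp
  simp only [Finset.sum_range_succ, Finset.sum_range_zero, qix, qY, qM, r1, r2]
  rw [hv]
  push_cast
  ring

/-- its coefficients -/
noncomputable def qRho (K : ℕ) (q : List ℤ) (kap : ℤ) (c i : ℕ) : ℝ :=
  if i = 0 then (qM q kap c 0 : ℝ) / 10 ^ 9 else if i = K - 2 then (qM q kap c 1 : ℝ) / 10 ^ 9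
    else if i = K - 1 then (qM q kap c 2 : ℝ) / 10 ^ 9 else if i = K - 4 then (qM q kap c 3 : ℝ) / 10 ^ 9
    else if i = K - 3 then (qM q kap c 4 : ℝ) / 10 ^ 9 else 0

theorem LR_qY {K n : ℕ} (h5 : 5 ≤ K) (hn : K < n) (q : List ℤ) (kap : ℤ) (c : ℕ) :
    LR n (2 ^ 56) (qY K q kap c) (qR K q kap c) 1 := by
  refine ⟨qRho K q kap c, fun v _ => ?_, fun i _ => ?_⟩
  · have hS : ({0, K - 2, K - 1, K - 4, K - 3} : Finset ℕ) ⊆ Finset.range n := by
      intro j hj
      simp only [Finset.mem_insert, Finset.mem_singleton] at hj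
      rw [Finset.mem_range]
      omega
    rw [← Finset.sum_subset hS]
    · rw [Finset.sum_insert (by simp; omega), Finset.sum_insert (by simp; omega), Finset.sum_insert (by simp; omega),
        Finset.sum_insert (by simp; omega), Finset.sum_singleton]
      have e0 : qRho K q kap c 0 = (qM q kap c 0 : ℝ) / 10 ^ 9 := by unfold qRho; rw [if_pos rfl]
      have e1 : qRho K q kap c (K - 2) = (qM q kap c 1 : ℝ) / 10 ^ 9 := by
        unfold qRho; rw [if_neg (by omega), if_pos rfl]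
      have e2 : qRho K q kap c (K - 1) = (qM q kap c 2 : ℝ) / 10 ^ 9 := by
        unfold qRho; rw [if_neg (by omega), if_neg (by omega), if_pos rfl]
      have e3 : qRho K q kap c (K - 4) = (qM q kap c 3 : ℝ) / 10 ^ 9 := by
        unfold qRho; rw [if_neg (by omega), if_neg (by omega), if_neg (by omega), if_pos rfl]
      have e4 : qRho K q kap c (K - 3) = (qM q kap c 4 : ℝ) / 10 ^ 9 := by
        unfold qRho; rw [if_neg (by omega), if_neg (by omega), if_neg (by omega), if_neg (by omega), if_pos rfl]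
      rw [e0, e1, e2, e3, e4]
      unfold qY
      ring
    · intro j _ hj
      simp only [Finset.mem_insert, Finset.mem_singleton, not_or] at hj
      have : qRho K q kap c j = 0 := by
        unfold qRho
        rw [if_neg hj.1, if_neg hj.2.1, if_neg hj.2.2.1, if_neg hj.2.2.2.1, if_neg hj.2.2.2.2]
      rw [this, zero_mul]
  · unfold qR qRho
    split_ifs
    · exact qD_err q kap c 0
    · exact qD_err q kap c 1
    · exact qD_err q kap c 2
    · exact qD_err q kap c 3
    · exact qD_err q kap c 4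
    · norm_num

theorem qix_lt {K n : ℕ} (h5 : 5 ≤ K) (hn : K < n) (c : ℕ) : qix K c < n := by
  unfold qix
  split <;> omega

theorem LR_qX {K n : ℕ} (h5 : 5 ≤ K) (hn : K < n) (c : ℕ) :
    LR n (2 ^ 56) (fun v => v (qix K c)) (fun i => if i = qix K c then 2 ^ 56 else 0) 0 := by
  have h := (LR.coord (qix_lt h5 hn c)).up (2 ^ 56)
  have e : (((2 : ℤ) ^ 56 : ℤ) : ℝ) * 1 = 2 ^ 56 := by push_cast; ring
  rw [e, mul_zero] at h
  refine h.congr (fun _ _ => rfl) fun i _ => ?_
  split_ifs <;> ring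

theorem qR_le {q : List ℤ} {kap : ℤ} (h1 : kap.natAbs ≤ 2 ^ 60) (h2 : ∀ i, (cf q i).natAbs ≤ 2 ^ 60) (K c i : ℕ) :
    |(qR K q kap c i : ℝ)| ≤ 2 ^ 88 := by
  have h : ∀ c d, |(qD q kap c d : ℝ)| ≤ 2 ^ 88 := fun c d => by exact_mod_cast qD_le h1 h2 c d
  unfold qR
  split_ifs
  all_goals first | exact h _ _ | (rw [Int.cast_zero, abs_zero]; positivity)

/-- **the block of `-Q + kap / 10^9`** (helper43's format): weight `10^9`, scale `10^9 * 2^112` -/
theorem Q_LB {b K L : ℕ} (h5 : 5 ≤ K) {q : List ℤ} {kap : ℤ} (h : okQ b q kap = true) :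
    LB (nt K L) (10 ^ 9 * (2 ^ 56 * 2 ^ 56)) (fun v => -q15 q (sV K v (-3)) (sV K v (-5)) + (kap : ℝ) / 10 ^ 9)
      (IF (nt K L) 5 (fun _ => 10 ^ 9) (row b (QA b K (nt K L))) (row b (QB b K (nt K L) q kap)))
      (5 * 10 ^ 9 * (nt K L * 2 ^ 56)) := by
  have hn : K < nt K L := by unfold nt bp; omega
  obtain ⟨hb, k1, k2⟩ := okQ_sound h
  have := LB.rows (n := nt K L) (m := 5) (G := 10 ^ 9) (q1 := 2 ^ 56) (q2 := 2 ^ 56) (w := fun _ => 1)
    (W := fun _ => 10 ^ 9) (X := fun c v => v (qix K c)) (Y := fun c => qY K q kap c)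
    (R := row b (QA b K (nt K L))) (T := row b (QB b K (nt K L) q kap)) (e1 := 0) (e2 := 1) (A := 2 ^ 56) (B := 2 ^ 88)
    (fun c hc => (LR_qX h5 hn c).congr (fun _ _ => rfl) fun i hi => row_QA hb h5 hc hi)
    (fun c hc => (LR_qY h5 hn q kap c).congr (fun _ _ => rfl) fun i hi => row_QB h hc hi)
    (fun c hc i hi => by
      rw [row_QA hb h5 hc hi]
      split_ifs <;> norm_num)
    (fun c hc i hi => by rw [row_QB h hc hi]; exact qR_le k1 k2 K c i)
    le_rfl zero_le_one (by positivity) (by positivity) (fun _ _ => by push_cast; ring)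
  refine LB.mono (LB.congr this (fun v hv => ?_) fun _ _ => rfl) (fun _ _ => le_rfl) (le_of_eq ?_)
  · rw [Q_val h5 q kap v hv]
    exact Finset.sum_congr rfl fun c _ => by ring
  · unfold eB
    rw [Finset.sum_const, Finset.card_range]
    norm_num

/-- the value of the block of helper25's check -/
theorem Q_blk (b K L : ℕ) (q : List ℤ) (kap : ℤ) (v : ℕ → ℝ) :
    Helper25.SH.Mat.Blk.val b (nt K L) v (.bl false 500000000 5 (QA b K (nt K L)) (QB b K (nt K L) q kap)) =
      IF (nt K L) 5 (fun _ => 10 ^ 9) (row b (QA b K (nt K L))) (row b (QB b K (nt K L) q kap)) v := by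
  show Helper25.SH.Mat.sgr false * _ = _
  unfold IF Helper25.SH.Mat.sgr
  rw [Finset.mul_sum]
  simp only [cond_false, one_mul]
  refine Finset.sum_congr rfl fun c _ => ?_
  push_cast
  ring

end Pool.Agent.Helper65.SH
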