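import Pool.Agent.Helper65.SH.QBlk
import Pool.Agent.Helper42.SH.HFend

/-!
# Project RC, SHARP, cell engine: piece 9 (`gQ`) of the end of a cell
-/

namespace Pool.Agent.Helper65.SH

open Helper95.SH Helper95.RC
open Pool.Agent.Helper15.SH (q15)
open Helper42.SH (LBB gQ)
open Helper25.SH.Mat (Blk)

/-- the blocks of the piece `q` -/
def qBs (b K L : ℕ) (q : List ℤ) : List Blk :=
  [.bl false 500000000 5 (QA b K (nt K L)) (QB b K (nt K L) q 0)]

/-- the error of the piece `q` -/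
def qE (K L : ℕ) : ℕ := Nat.mul 5000000000 (Nat.mul (nt K L) (2 ^ 56))

/-- **piece 9 of the end of a cell** -/
theorem q_LBB {b K H : ℕ} (h5 : 5 ≤ K) {q : List ℤ} (h : okQ b q 0 = true) {c : CD} (hc : c.Q = q15 q) :
    LBB b (nt K (2 * H)) (10 ^ 9 * (2 ^ 56 * 2 ^ 56)) (fun v => gQ c K v) (qBs b K (2 * H) q) (qE K (2 * H) : ℕ) := by
  have h1 := Q_LB (L := 2 * H) h5 h
  refine LBB.one ?_
  refine Helper43.CL.LB.mono (Helper43.CL.LB.congr h1 (fun v _ => ?_) (fun v _ => Q_blk b K (2 * H) q 0 v))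
    (fun _ _ => le_rfl) (le_of_eq ?_)
  · unfold gQ
    rw [hc]
    simp
  · unfold qE
    show (5 : ℝ) * 10 ^ 9 * ((nt K (2 * H) : ℝ) * 2 ^ 56) = ((5000000000 * (nt K (2 * H) * 2 ^ 56) : ℕ) : ℝ)
    push_cast
    ring

end Pool.Agent.Helper65.SH
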